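import Pool.Agent.H.MP_4d0082_an.B

set_option autoImplicit false

namespace Pool.Agent.H.MP_9100ee_an
open Filter Topology Metric Pool.Agent.H.MP_034cab_an ComplexConjugate InnerProductSpace ContinuousLinearMap
  Pool.Agent.H.MP_4d0082_an

lemma SB (y : H) : S (adjoint S y) = y - PS y 0 • k 0 := ps_ext fun z hz => by
  rw [ps_S _ hz, ps_B _ hz, ps_sub _ _ hz, ps_smul _ _ hz, ps_one hz, mul_one]

lemma B_app (y : H) (n : ℕ) : adjoint S y n = y (n + 1) := by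
  have := congrArg (fun f : H => f (n + 1)) (SB y)
  refine Eq.trans this ?_
  simp [k_app (z := 0) (by simp)]

lemma B_norm (y : H) : ‖adjoint S y‖ ^ 2 = ‖y‖ ^ 2 - ‖PS y 0‖ ^ 2 := by
  have h1 := (hasSum_nat_add_iff' 1).2 (n2 y)
  simp only [Finset.range_one, Finset.sum_singleton, ← B_app, ← ps0] at h1
  exact (n2 _).unique h1

lemma weak (y g : H) : Tendsto (fun n => ⟪y, (S ^ n) g⟫_ℂ) atTop (𝓝 0) := by
  have e : ∀ n, ⟪y, (S ^ n) g⟫_ℂ = ⟪(adjoint S ^ n) y, g⟫_ℂ := fun n => by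
    rw [← star_eq_adjoint, ← star_pow, star_eq_adjoint, adjoint_inner_left]
  have a : ∀ n m, (adjoint S ^ n) y m = y (m + n) := fun n => by
    induction n with
    | zero => simp
    | succ n ih => intro m; rw [pow_succ', ContinuousLinearMap.mul_apply, B_app, ih, add_right_comm, add_assoc]
  have t : Tendsto (fun n => ‖(adjoint S ^ n) y‖ ^ 2) atTop (𝓝 0) := by
    refine (tendsto_sum_nat_add fun n => ‖y n‖ ^ 2).congr fun n => ?_
    rw [← (n2 _).tsum_eq]; simp only [a]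
  have t2 : Tendsto (fun n => ‖(adjoint S ^ n) y‖) atTop (𝓝 0) := by
    simpa using t.sqrt
  refine squeeze_zero_norm (fun n => ?_) (zero_mul ‖g‖ ▸ t2.mul_const ‖g‖)
  rw [e]; exact norm_inner_le_norm _ _

lemma cd {a b c d : ℂ} (h : a * d - b * c ≠ 0) (h1 : ∀ z : ℂ, ‖z‖ < 1 → c * z + d ≠ 0)
    (h2 : ∀ z : ℂ, ‖z‖ < 1 → ‖(a * z + b) / (c * z + d)‖ < 1) : ‖c‖ < ‖d‖ := by
  by_contra! hc
  have d0 : d ≠ 0 := by simpa using h1 0 (by simp)
  have c0 : c ≠ 0 := norm_pos_iff.1 ((norm_pos_iff.2 d0).trans_le hc)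
  have h3 : ∀ z ∈ closure (ball (0 : ℂ) 1), ‖a * z + b‖ ≤ ‖c * z + d‖ :=
    closure_minimal (t := {z | ‖a * z + b‖ ≤ ‖c * z + d‖}) (fun z hz => by
      have hz := mem_ball_zero_iff.1 hz
      have := h2 z hz
      rw [norm_div, div_lt_one (norm_pos_iff.2 (h1 z hz))] at this
      exact this.le) (isClosed_le (by fun_prop) (by fun_prop))
  have := h3 (-d / c) (by
    rw [closure_ball _ one_ne_zero, mem_closedBall_zero_iff, norm_div, norm_neg]
    exact div_le_one_of_le₀ hc (norm_nonneg _))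
  rw [show c * (-d / c) + d = 0 by field_simp; ring, norm_zero, norm_le_zero_iff] at this
  field_simp at this
  exact h (by linear_combination -this)

theorem main {φ ψ : ℂ → ℂ} {a b c d : ℂ} (h : a * d - b * c ≠ 0) (h1 : ∀ z : ℂ, ‖z‖ < 1 → c * z + d ≠ 0)
    (h2 : ∀ z : ℂ, ‖z‖ < 1 → φ z = (a * z + b) / (c * z + d)) (hm : ∀ z : ℂ, ‖z‖ < 1 → ‖φ z‖ < 1) {T : H →L[ℂ] H}
    (hT : ∀ (f : H) (z : ℂ), ‖z‖ < 1 → PS (T f) z = ψ z * PS f (φ z)) (hN : IsStarNormal T) :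
    ∃ s : ℂ, ∀ z : ℂ, ‖z‖ < 1 → ψ z = s / (c * z + d) := by
  by_cases h0 : ∃ z : ℂ, ‖z‖ < 1 ∧ ψ z ≠ 0
  swap
  · push Not at h0
    exact ⟨0, fun z hz => by simp [h0 z hz]⟩
  have l := cd h h1 fun z hz => h2 z hz ▸ hm z hz
  have d0 : d ≠ 0 := norm_pos_iff.1 ((norm_nonneg _).trans_lt l)
  have hd : AnalyticOnNhd ℂ φ (ball 0 1) := DifferentiableOn.analyticOnNhd
    ((DifferentiableOn.div (by fun_prop) (by fun_prop) fun z hz => h1 z (mem_ball_zero_iff.1 hz)).congr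
      fun z hz => h2 z (mem_ball_zero_iff.1 hz)) isOpen_ball
  have nc : ¬∃ w, ∀ z ∈ ball (0 : ℂ) 1, φ z = w := by
    rintro ⟨w, hw⟩
    have := (hw 0 (by simp)).trans (hw (1 / 2) (by norm_num)).symm
    rw [h2 _ (by simp), h2 _ (by norm_num), div_eq_div_iff (h1 _ (by simp)) (h1 _ (by norm_num))] at this
    exact h (by linear_combination -2 * this)
  obtain ⟨U, Φ, eU, hΦ, hX⟩ := setup hd hm nc hT hN h0
  set X : H →L[ℂ] H := (U : H →L[ℂ] H) ∘L adjoint Φ ∘L (U.symm : H →L[ℂ] H)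
  have eX : ∀ g, X g = U (adjoint Φ (U.symm g)) := fun g => rfl
  obtain ⟨x1, -⟩ := two hd hm nc (X := X) hX
  have hp := hm 0 (by simp)
  set Δ : ℝ := ‖d‖ ^ 2 - ‖c‖ ^ 2 with hΔ
  have Δ0 : 0 < Δ := sub_pos.2 (pow_lt_pow_left₀ l (norm_nonneg _) two_ne_zero)
  have eΔ : (Δ : ℂ) = conj d * d - conj c * c := by rw [Complex.conj_mul', Complex.conj_mul', hΔ]; push_cast; ring
  have Δ1 : (Δ : ℂ) ≠ 0 := by exact_mod_cast Δ0.ne'
  set η : ℂ := (b * conj d - a * conj c) / Δ with hη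
  set γ : ℂ := (a * d - b * c) / Δ with hγ
  have q1 : ‖-conj (c / d)‖ < 1 := by
    rwa [norm_neg, Complex.norm_conj, norm_div, div_lt_one (norm_pos_iff.2 d0)]
  set κ : H := d⁻¹ • k (-conj (c / d)) with hκ
  have pκ : ∀ z : ℂ, ‖z‖ < 1 → (c * z + d) * PS κ z = 1 := fun z hz => by
    have := ps_k q1 hz
    rw [map_neg, Complex.conj_conj] at this
    rw [hκ, ps_smul _ _ hz, ← this]; field_simp; ring
  set Q : H →L[ℂ] H := c • S + d • 1 with hQ
  have pQ : ∀ (g : H) (z : ℂ), ‖z‖ < 1 → PS (Q g) z = (c * z + d) * PS g z := fun g z hz => by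
    change PS (c • S g + d • g : H) z = _
    rw [ps_add _ _ hz, ps_smul _ _ hz, ps_smul _ _ hz, ps_S _ hz]; ring
  have Qκ : Q κ = k 0 := ps_ext fun z hz => by rw [pQ _ z hz, pκ z hz, ps_one hz]
  have dQ := dense_of (T := adjoint Q) (by
    rw [adjoint_adjoint]
    exact fun f hf => ps_ext fun z hz => by
      have := pQ f z hz
      rw [hf, ps_zero] at this
      rw [ps_zero, (mul_eq_zero.1 this.symm).resolve_left (h1 z hz)])
  have form : ∀ g : H, ‖adjoint Φ g - conj η • g‖ ^ 2 = ‖γ‖ ^ 2 * (‖g‖ ^ 2 - Δ * ‖⟪κ, g⟫_ℂ‖ ^ 2) := by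
    intro g
    refine dQ.induction_on g (isClosed_eq (by fun_prop) (by fun_prop)) fun f => ?_
    change ‖adjoint Φ (adjoint Q f) - conj η • adjoint Q f‖ ^ 2 = ‖γ‖ ^ 2 * (‖adjoint Q f‖ ^ 2 - Δ * ‖⟪κ, adjoint Q f⟫_ℂ‖ ^ 2)
    have e1 : adjoint Φ (adjoint Q f) - conj η • adjoint Q f = conj γ • (d • adjoint S f + c • f) :=
      ext_inner_left ℂ fun u => by
        have e : Q (Φ u) - η • Q u = γ • (conj d • S u + conj c • u) := ps_ext fun z hz => by
          rw [ps_sub _ _ hz, ps_smul _ _ hz, ps_smul _ _ hz, ps_add _ _ hz, ps_smul _ _ hz, ps_smul _ _ hz, pQ _ z hz,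
            pQ _ z hz, hΦ _ z hz, ps_S _ hz, h2 z hz, hη, hγ]
          have := h1 z hz
          field_simp
          rw [eΔ]; ring
        have e' := congrArg (⟪·, f⟫_ℂ) e
        simp only [inner_sub_left, inner_add_left, inner_smul_left, Complex.conj_conj] at e'
        simp only [inner_sub_right, inner_add_right, inner_smul_right, adjoint_inner_right]
        exact e'
    have e2 : adjoint Q f = conj c • adjoint S f + conj d • f := ext_inner_left ℂ fun u => by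
      rw [adjoint_inner_right]
      change ⟪c • S u + d • u, f⟫_ℂ = _
      simp only [inner_add_left, inner_smul_left, inner_add_right, inner_smul_right, adjoint_inner_right]
    rw [e1, adjoint_inner_right, Qκ, ik (by simp), e2, norm_smul, mul_pow, Complex.norm_conj, norm_add_sq (𝕜 := ℂ),
      norm_add_sq (𝕜 := ℂ)]
    simp only [norm_smul, mul_pow, Complex.norm_conj, inner_smul_left, inner_smul_right, B_norm, Complex.conj_conj, hΔ,
      mul_left_comm c]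
    ring
  have nS : ∀ g : H, PS g (φ 0) = 0 → PS (S g) (φ 0) = 0 ∧ ‖⟪U κ, S g⟫_ℂ‖ = ‖⟪U κ, g⟫_ℂ‖ := fun g hg => by
    refine ⟨by rw [ps_S _ hp, hg, mul_zero], ?_⟩
    have f2 : ∀ g : H, ‖X g - conj η • g‖ ^ 2 = ‖γ‖ ^ 2 * (‖g‖ ^ 2 - Δ * ‖⟪U κ, g⟫_ℂ‖ ^ 2) := fun g => by
      have := form (U.symm g)
      rwa [← U.norm_map, map_sub, map_smul, ← eX, U.apply_symm_apply, U.symm.norm_map, ← U.inner_map_map,
        U.apply_symm_apply] at this
    have f3 := f2 (S g)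
    rw [x1 g hg, ← map_smul, ← map_sub, S_norm, S_norm, f2 g] at f3
    have γ0 : ‖γ‖ ^ 2 ≠ 0 := pow_ne_zero 2 (norm_ne_zero_iff.2 (div_ne_zero h Δ1))
    have f4 := mul_left_cancel₀ Δ0.ne' (sub_right_injective (mul_left_cancel₀ γ0 f3))
    exact ((sq_eq_sq₀ (norm_nonneg _) (norm_nonneg _)).1 f4).symm
  have z0 : ∀ g : H, PS g (φ 0) = 0 → ⟪U κ, g⟫_ℂ = 0 := fun g hg => by
    have i : ∀ n, PS ((S ^ n) g) (φ 0) = 0 ∧ ‖⟪U κ, (S ^ n) g⟫_ℂ‖ = ‖⟪U κ, g⟫_ℂ‖ := fun n => by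
      induction n with
      | zero => exact ⟨hg, rfl⟩
      | succ n ih =>
        rw [pow_succ', ContinuousLinearMap.mul_apply]
        exact ⟨(nS _ ih.1).1, (nS _ ih.1).2.trans ih.2⟩
    have t := (weak (U κ) g).norm
    simp only [(i _).2, norm_zero] at t
    exact norm_eq_zero.1 (tendsto_nhds_unique tendsto_const_nhds t)
  have k0 : PS (k (φ 0)) (φ 0) ≠ 0 := left_ne_zero_of_mul_eq_one (ps_k hp hp)
  set t := PS (U κ) (φ 0) / PS (k (φ 0)) (φ 0) with ht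
  have g0 : PS (U κ - t • k (φ 0) : H) (φ 0) = 0 := by
    rw [ps_sub _ _ hp, ps_smul _ _ hp, ht, div_mul_cancel₀ _ k0, sub_self]
  have e3 : U κ = t • k (φ 0) := by
    rw [← sub_eq_zero, ← inner_self_eq_zero (𝕜 := ℂ), inner_sub_left, z0 _ g0, inner_smul_left, ik hp, g0]; simp
  have e4 : U (T (k 0)) = conj (ψ 0) • k (φ 0) := ext_inner_right ℂ fun u => by
    rw [eU, adjoint_inner_left, ik (by simp), hT _ _ (by simp), inner_smul_left, ik hp, Complex.conj_conj]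
  have e5 : t • T (k 0) = conj (ψ 0) • κ := U.injective (by rw [map_smul, map_smul, e3, e4, smul_comm])
  have t0 : t ≠ 0 := fun h => by
    rw [h, zero_smul, map_eq_zero_iff _ U.injective] at e3
    have := pκ 0 (by simp)
    rw [e3, ps_zero] at this
    simp at this
  refine ⟨conj (ψ 0) / t, fun z hz => ?_⟩
  have e6 := congrArg (fun f : H => PS f z) e5
  simp only [ps_smul _ _ hz, hT _ z hz, ps_one (hm z hz)] at e6
  rw [eq_div_iff (h1 z hz), eq_div_iff t0]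
  linear_combination (c * z + d) * e6 + conj (ψ 0) * pκ z hz

end Pool.Agent.H.MP_9100ee_an
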